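import Mathlib
import Pool.Agent.Helper64.Moral

set_option autoImplicit false

namespace Pool.Agent.Results.MP_e3b71d_lc.MoralEqualsTruthful

open Pool.Agent.Helper64

/-- For independent values on the grid `{0, 1/k, ..., 1}` with arbitrary full-support marginals
(identical or not, regular or not), any number `n` of players and every `α ∈ [0, 1]`, the maximum
revenue over `α`-moral mechanisms exists and equals the maximum revenue over truthful
mechanisms. -/
theorem result :
    ∀ (n k : ℕ), 0 < k → ∀ q : Fin n → Fin (k + 1) → ℝ,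
      (∀ i x, 0 < q i x) → (∀ i, ∑ x, q i x = 1) →
      ∃ r : ℝ, IsGreatest (Mechanism.truthfulRevenues q) r ∧
        ∀ α ∈ Set.Icc (0 : ℝ) 1, IsGreatest (Mechanism.moralRevenues α q) r := by
  intro n k hk q hq _
  obtain ⟨a, ha, hbest⟩ := exists_best (n := n) (k := k) q
  refine ⟨best n k q, ⟨⟨ofAlloc a, ofAlloc_truthful ha, hbest.symm⟩, ?_⟩, ?_⟩
  · rintro r ⟨M, hM, rfl⟩
    exact revenue_le_best (le_refl (1 : ℝ)) (hM.moral 1) hk hq
  · intro α hα
    refine ⟨⟨ofAlloc a, (ofAlloc_truthful ha).moral α, hbest.symm⟩, ?_⟩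
    rintro r ⟨M, hM, rfl⟩
    exact revenue_le_best hα.2 hM hk hq

end Pool.Agent.Results.MP_e3b71d_lc.MoralEqualsTruthful
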